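import Pool.Agent.D0H76.SPC.All

/-!
# Common zeros of two Dirichlet L-functions with conductors in sparse sequences

Statement 1 of the question implies that the zeros of the Artin L-functions of a Galois group over `ℚ` are simple and
that no two of them have a common zero; for cyclotomic fields these are the Dirichlet L-functions.

The starting result CommonZerosPolynomialHeights proves, on average over all pairs of primitive characters of all
conductors `X < q, r ≤ Y`, that a positive proportion of the zeros of `L(s, χ)` with ordinates in `(T, 2 T]`,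
`T ≤ X ^ τ`, are simple, on the critical line and not zeros of `L(s, ψ)`, and bounds the number of the common zeros.
Here the two conductors run through thin sets: `q = ⌊α n ^ h⌋` and `r = ⌊β m ^ l⌋`, with `h, l > 0` arbitrary (for
`h > 1` these are only about `X ^ (1 / h)` of the integers up to `X`), for almost every `α > 0` and almost every
`β > 0`, and the constants are the same.

Proof. The averages over all characters of a fixed pair of conductors are bounded by a power of the logarithm.  By the
universal sampling theorem of helper91 (`Pool.Agent.D0H91.US.us_ae`: the mean value of a bounded arithmetic function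
along `⌊α n ^ h⌋` is the mean value along the integers with a power saving, for almost all `α`, uniformly in families of
polynomial size), partial summation, and a sampling first of `q` (with the average over `r` as function of `q`) and
then of `r` (with the average over `n` as function of `r`), the double average along the two sequences with the weights
`1 / (n q m r)` is `1 / (h l)` times the average over all conductors, up to an error which is small compared with the
number of the zeros; first for windows of conductors and of heights whose ends are powers of a fixed number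
`λ = 1 + 1 / M` (`D0H76/SPC/Lamv.lean`), then for all windows, since the layers between two neighbouring windows
contribute little (`D0H76/SPC/Tr.lean`, `D0H76/SPC/All.lean`).
-/

set_option autoImplicit false

open Filter Topology MeasureTheory

namespace Pool.Agent.Results.MP_347b49_nt.CommonZerosSparseConductors

open Pool.Agent.Results.MP_347b49_nt.CommonZerosPolynomialHeights

/-- The sequence `⌊α n ^ h⌋`. -/
noncomputable def seq (α h : ℝ) (n : ℕ) : ℕ := ⌊α * (n : ℝ) ^ h⌋₊

/-- The indices `n` with `X < ⌊α n ^ h⌋ ≤ Y`. -/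
def idx (α h : ℝ) (X Y : ℕ) : Set ℕ := {n : ℕ | X < seq α h n ∧ seq α h n ≤ Y}

/-- The sum of `f q χ r ψ / (n q m r)` over all indices `n`, `m` with `q = ⌊α n ^ h⌋` and `r = ⌊β m ^ l⌋` in `(X, Y]` and
all pairs of primitive Dirichlet characters `χ` of conductor `q` and `ψ` of conductor `r`. -/
noncomputable def avgS (α h β l : ℝ) (X Y : ℕ)
    (f : (q : ℕ) → DirichletCharacter ℂ q → (r : ℕ) → DirichletCharacter ℂ r → ℕ) : ℝ :=
  ∑ᶠ m ∈ idx β l X Y, ∑ᶠ n ∈ idx α h X Y, ∑ᶠ χ ∈ prim (seq α h n), ∑ᶠ ψ ∈ prim (seq β l m),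
    (f (seq α h n) χ (seq β l m) ψ : ℝ) / ((n : ℝ) * seq α h n * (m * seq β l m))

theorem idx_def (α h : ℝ) (X Y : ℕ) : idx α h X Y = Pool.Agent.D0H76.SPC.Sparse.idx α h X Y := rfl

theorem avgS_def (α h β l : ℝ) (X Y : ℕ)
    (f : (q : ℕ) → DirichletCharacter ℂ q → (r : ℕ) → DirichletCharacter ℂ r → ℕ) :
    avgS α h β l X Y f = Pool.Agent.D0H76.SPC.Sparse.avgS α h β l X Y f := rfl

/-- **Common zeros of two Dirichlet L-functions on average over all pairs of primitive characters with conductors
`⌊α n ^ h⌋` and `⌊β m ^ l⌋`, for almost every `α` and almost every `β`.** -/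
theorem result :
    (∀ h l : ℝ, 0 < h → 0 < l → ∀ᵐ α : ℝ, 0 < α → ∀ᵐ β : ℝ, 0 < β →
      ∀ τ ε : ℝ, 0 ≤ τ → 0 < ε → ∃ K η X₀ : ℝ, 1 ≤ K ∧ 0 < η ∧ 1 ≤ X₀ ∧
      ∀ (X Y : ℕ) (T : ℝ), X₀ ≤ X → K * X ≤ Y → (Y : ℝ) ≤ (X : ℝ) ^ (1 + η) →
      4 * (Real.log X) ^ 2 ≤ T → T ≤ (X : ℝ) ^ τ →
      (idx α h X Y).Finite ∧ (idx β l X Y).Finite ∧
      (∀ q : ℕ, X < q → ∀ χ ∈ prim q, (zeros (Lfun q χ) T).Finite) ∧
      0 < avgS α h β l X Y (fun q χ _ _ => N (Lfun q χ) T) ∧
      (2 - c ((2 + τ) / (1 + τ)) - ε) * avgS α h β l X Y (fun q χ _ _ => N (Lfun q χ) T) ≤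
        avgS α h β l X Y (fun q χ r ψ => (only (Lfun q χ) (Lfun r ψ) T).ncard) ∧
      (3 - c ((2 + τ) / (1 + τ)) - ε) * avgS α h β l X Y (fun q χ _ _ => N (Lfun q χ) T) ≤
        avgS α h β l X Y (fun q χ r ψ => (zeros (Lfun q χ) T ∪ zeros (Lfun r ψ) T).ncard) ∧
      avgS α h β l X Y (fun q χ r ψ => common (Lfun q χ) (Lfun r ψ) T) ≤
        (c ((2 + τ) / (1 + τ)) - 1 + ε) * avgS α h β l X Y (fun q χ _ _ => N (Lfun q χ) T)) ∧
    (∀ a b : ℝ, 0 < a → a ≤ b → b ≤ 2 → c b ≤ c a) ∧
    c 2 ≤ 1.6421 ∧ c (3 / 2) ≤ 1.827 ∧ c (19 / 15) ≤ 1.9975 := by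
  refine ⟨?_, Pool.Agent.Results.MP_347b49_nt.CommonZerosPolynomialHeights.result.2⟩
  simp only [idx_def, avgS_def]
  exact Pool.Agent.D0H76.SPC.Sparse.all

end Pool.Agent.Results.MP_347b49_nt.CommonZerosSparseConductors
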