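import Pool.Agent.D0H40.SP.CorrT
import Pool.Agent.D0H40.SP.Win2
import Pool.Agent.D0H40.AR.Frob
import Pool.Agent.D0H40.AR.Eig

/-!
# Partial Euler products and the multiplicities of the ordinates of the zeros of Artin L-functions

Let `L/ℚ` be a finite Galois extension and `ρ_1, …, ρ_n` representations of `Gal(L/ℚ)`, for example the
irreducible ones, each once.  The Artin L-functions `L(s, χ_i)` are meromorphic (Brauer); we use the continuation
to `Re s ≥ 1/2`, and no bound for the growth.  (We leave out the Euler factors at `2`, `3` and at the ramified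
primes.  The one at `p` can only have poles on `Re s = 0`.)  Let `γ ≠ 0`, and let `m_i` be the order of
`L(s, χ_i)` at `1/2 + iγ`.  Then `m = ∑ m_i` is the multiplicity of `γ > 0` in the multiset `Γ` of the problem
if there are no poles at `1/2 + iγ`.  Let `k ≥ 0` be an integer and `G(s) = (s - 1)^k ∏ L(s, χ_i)`; one has to
take for `k` the number of the `ρ_i` which are trivial, so that the pole of `∏ L(s, χ_i)` at `s = 1` is removed.
We consider the products

`P(n) = ∏_i ∏_{p ≤ n} |det (1 - p^(-1/2-iγ) ρ_i(Frob_p))| · exp (k Re ∫_1^n (t^(-1/2-iγ) - t^(-1)) / log t dt)`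

(the integral is written with `t = e^v`), the exponent `q = m - k`, and, if `|G(s)| ~ c |s - 1/2 - iγ|^m`, the
constant `T = e^(q γ₀) / c`, `γ₀` Euler's constant.  Let `ord s` be the order at `s` of `G(s) conj G(s')`, `s'` the
image of `s` under the reflection in the line `Im s = γ`.  We say `RH` if `ord s = 0` for `Re s > 1/2`, and that
`G` is zero-dominated (pole-dominated) if there is a point `s₀ + iγ`, `s₀ > 1/2`, with `ord > 0` (`ord < 0`) at it
and `ord s = 0` for `Re s > s₀`.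

* If `RH` fails and `G` is neither zero-dominated nor pole-dominated, then for every slowly changing
  subexponential sequence `f`, for example all powers of `log n`, every number `A ≥ 0` is a limit point of
  `P(n) / f(n)`.
* Zeros or poles with `Re s > 1/2 + θ` lead to `P(n) > exp (n^θ)` and `P(n) < exp (-n^θ)` for infinitely many `n`.
* One-sided bounds `P(n) ≤ (log n)^(a + o(1))`, `P(n) ≥ (log n)^(a - o(1))` imply `RH` and `q ≤ a`, `a ≤ q`.
* `P(n) / (log n)^a → 0` implies `RH` and `q < a`; `P(n) / (log n)^a → ∞` implies `RH` and `a < q`.  So in the case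
  of the irreducible `ρ_i` (`k = 1`), `P(n) = o(log n)` implies `m ≤ 1`: the value `γ` does not occur twice in `Γ`;
  and `P(n) → 0` implies `m ≤ 0`.
* If `P(n) / (log n)^a → A` with `0 < A < ∞`, then `RH` holds, `a = q` and `A = T`.
* The upper limit of `P(n) / (log n)^q` is at least `T` and the lower limit is at most `T`.  `T` is a limit point,
  and either `P(n) ~ T (log n)^q` or all numbers between `T` and some `B ≠ T` are limit points.
* A one-sided bound `P(n) ≤ exp (n^(o(1)))` or `P(n) ≥ exp (-n^(o(1)))` implies `RH` and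
  `w ∫_e^∞ log (P([x]) / (log x)^q) x^(-1-w) dx → log T` for `w → 0+`.

The statements with lower bounds need that `G` is not zero-dominated, those with upper bounds that `G` is not
pole-dominated.  The proof uses Chebotarev's theorem with natural density and the prime number theorem for the
sums `∑ χ_i(Frob_p²) p^(-1-2iγ)` over `√x < p ≤ x`.
-/

set_option autoImplicit false

namespace Pool.Agent.Results.MP_347b49_nt.CorrectedProducts

open Filter Topology NumberField Complex MeasureTheory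
open scoped ComplexConjugate

section Defs

variable {L : Type} [Field L] [NumberField L] {d : ℕ}

/-- `p > 3` is a prime which is unramified in `L`. -/
def Good (L : Type) [Field L] [NumberField L] (p : ℕ) : Prop :=
  p.Prime ∧ 3 < p ∧ ¬ (p : ℤ) ∣ discr L

/-- `σ` is a Frobenius element at `p`: there is a maximal ideal `Q` of `𝓞 L` which contains `p` with
`σ x ≡ x^p` modulo `Q` for all `x ∈ 𝓞 L`. -/
def IsFrobenius (p : ℕ) (σ : Gal(L/ℚ)) : Prop :=
  ∃ Q : Ideal (𝓞 L), Q.IsMaximal ∧ (p : 𝓞 L) ∈ Q ∧ ∀ x : 𝓞 L, σ • x - x ^ p ∈ Q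

/-- the Euler factor `det (1 - p^(-s) ρ(Frob_p))⁻¹` of the good primes, and `1` for the other `p` -/
noncomputable def eulerFactor (ρ : Gal(L/ℚ) →* Matrix (Fin d) (Fin d) ℂ) (fr : ℕ → Gal(L/ℚ)) (s : ℂ)
    (p : ℕ) : ℂ :=
  open Classical in if Good L p then ((1 - (p : ℂ) ^ (-s) • ρ (fr p)).det)⁻¹ else 1

/-- `F` is the meromorphic continuation of the (incomplete) Artin L-function, a convergent Euler product for
`Re s > 1`, to `Re s ≥ 1/2`. -/
structure IsContinuation (ρ : Gal(L/ℚ) →* Matrix (Fin d) (Fin d) ℂ) (fr : ℕ → Gal(L/ℚ)) (F : ℂ → ℂ) :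
    Prop where
  mero : ∀ s : ℂ, 1 / 2 ≤ s.re → MeromorphicAt F s
  prod : ∀ s : ℂ, 1 < s.re → HasProd (eulerFactor ρ fr s) (F s)

/-- the good primes up to `n` -/
noncomputable def goodPrimes (L : Type) [Field L] [NumberField L] (n : ℕ) : Finset ℕ :=
  open Classical in (Finset.range (n + 1)).filter (Good L)

/-- the product of `|det (1 - p^(-1/2-iγ) ρ(Frob_p))|` over the good primes up to `n` -/
noncomputable def partialProduct (ρ : Gal(L/ℚ) →* Matrix (Fin d) (Fin d) ℂ) (fr : ℕ → Gal(L/ℚ)) (γ : ℝ)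
    (n : ℕ) : ℝ :=
  ∏ p ∈ goodPrimes L n, ‖(1 - (p : ℂ) ^ (-(1 / 2 + γ * I)) • ρ (fr p)).det‖

/-- `Re ∫_0^(log n) (e^((1/2-iγ)v) - 1) / v dv = Re ∫_1^n (t^(-1/2-iγ) - t^(-1)) / log t dt` -/
noncomputable def poleTerm (γ : ℝ) (n : ℕ) : ℝ :=
  ∫ v in (0 : ℝ)..Real.log n, ((exp ((1 / 2 - γ * I) * v) - 1) / v).re

/-- the corrected product of the representations `ρ_i` -/
noncomputable def corrected {n : ℕ} {d : Fin n → ℕ}
    (ρ : (i : Fin n) → Gal(L/ℚ) →* Matrix (Fin (d i)) (Fin (d i)) ℂ) (fr : ℕ → Gal(L/ℚ)) (γ : ℝ) (k : ℕ)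
    (N : ℕ) : ℝ :=
  (∏ i, partialProduct (ρ i) fr γ N) * Real.exp (k * poleTerm γ N)

/-- `(s - 1)^k ∏ F_i(s)` -/
noncomputable def total {n : ℕ} (F : Fin n → ℂ → ℂ) (k : ℕ) (s : ℂ) : ℂ := (s - 1) ^ k * ∏ i, F i s

/-- the order at `s` of `G(s) conj G(s')`, `s' = conj s + 2iγ` -/
noncomputable def ord (G : ℂ → ℂ) (γ : ℝ) (s : ℂ) : WithTop ℤ :=
  meromorphicOrderAt G s + meromorphicOrderAt G (conj s + 2 * γ * I)

/-- the Riemann hypothesis for `G(s) conj G(s')` -/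
def RH (G : ℂ → ℂ) (γ : ℝ) : Prop := ∀ s : ℂ, 1 / 2 < s.re → ord G γ s = 0

/-- a zero at `s₀ + iγ`, `s₀ > 1/2`, and no zeros and poles with real part greater than `s₀` -/
def ZeroDominated (G : ℂ → ℂ) (γ : ℝ) : Prop :=
  ∃ s₀ : ℝ, 1 / 2 < s₀ ∧ 0 < ord G γ (s₀ + γ * I) ∧ ∀ s : ℂ, s₀ < s.re → ord G γ s = 0

/-- a pole at `s₀ + iγ`, `s₀ > 1/2`, and no zeros and poles with real part greater than `s₀` -/
def PoleDominated (G : ℂ → ℂ) (γ : ℝ) : Prop :=
  ∃ s₀ : ℝ, 1 / 2 < s₀ ∧ ord G γ (s₀ + γ * I) < 0 ∧ ∀ s : ℂ, s₀ < s.re → ord G γ s = 0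

/-- slowly changing subexponential sequences: `f(n) > 0` for large `n`, `f(n+1)/f(n) → 1` and
`|log f(n)| ≤ n^(o(1))` -/
structure IsSlow (f : ℕ → ℝ) : Prop where
  pos : ∀ᶠ n in atTop, 0 < f n
  ratio : Tendsto (fun n => f (n + 1) / f n) atTop (𝓝 1)
  sub : ∀ ε : ℝ, 0 < ε → ∀ᶠ n : ℕ in atTop, |Real.log (f n)| ≤ (n : ℝ) ^ ε

/-- the sequence `(log n)^a` -/
noncomputable def logPow (a : ℝ) (n : ℕ) : ℝ := Real.log n ^ a

/-- the quotients `P(n) / f(n)` -/
noncomputable def quot (P f : ℕ → ℝ) (n : ℕ) : ℝ := P n / f n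

/-- `A` is a limit point of the sequence `g` -/
def IsLimitPoint (g : ℕ → ℝ) (A : ℝ) : Prop :=
  ∃ n : ℕ → ℕ, Tendsto n atTop atTop ∧ Tendsto (fun k => g (n k)) atTop (𝓝 A)

/-- `w ∫_e^∞ g(x) x^(-1-w) dx → A` for `w → 0+`, where the integrals (written with `x = e^u`) converge for
`w > 0` -/
def HasMean (g : ℝ → ℝ) (A : ℝ) : Prop :=
  (∀ w : ℝ, 0 < w → IntegrableOn (fun u : ℝ => g (Real.exp u) * Real.exp (-(w * u))) (Set.Ioi 1)) ∧
    Tendsto (fun w : ℝ => w * ∫ u in Set.Ioi (1 : ℝ), g (Real.exp u) * Real.exp (-(w * u))) (𝓝[>] 0) (𝓝 A)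

end Defs

/-! ### Translation to the definitions of the imported files -/

section Translation

variable {L : Type} [Field L] [NumberField L] {d : ℕ}

open Pool.Agent.D0H40.AR
open Pool.Agent.D0H40.SP
open Pool.Agent.D0H40.CX (dn)
open Pool.Agent.W401.Cheb (M)

theorem good_five {p : ℕ} (hp : Good L p) : 5 ≤ p := by
  have h5 := hp.2.1
  rcases Nat.lt_or_ge 4 p with h6 | h6
  · omega
  · exfalso
    have h7 : p = 4 := by omega
    have h8 := hp.1
    rw [h7] at h8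
    exact absurd h8 (by decide)

theorem good_pos (p : ℕ) (hp : Good L p) : 0 < p := hp.1.pos

/-- the parameters -/
theorem exists_par (ρ : Gal(L/ℚ) →* Matrix (Fin d) (Fin d) ℂ) (fr : ℕ → Gal(L/ℚ)) :
    ∃ α : ℕ → Fin d → ℂ, Par (Good L) α ∧
      (∀ (p : ℕ) (x : ℂ), (1 - x • ρ (fr p)).det = ∏ j, (1 - α p j * x)) ∧
      (∀ p, (ρ (fr p)).trace = ∑ j, α p j) ∧
      ∀ p, (ρ ((fr p) ^ 2)).trace = ∑ j, α p j ^ 2 := by
  have hpow : ∀ g : Gal(L/ℚ), (ρ g) ^ (Nat.card Gal(L/ℚ)) = 1 := fun g => by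
    rw [← map_pow, pow_card_eq_one', map_one]
  have h := fun p : ℕ => eig (M := ρ (fr p)) (n := Nat.card Gal(L/ℚ)) Nat.card_pos (hpow _)
  choose α h1 h2 h3 h4 using h
  refine ⟨α, ⟨fun p hp => hp.1, fun p hp => good_five hp, fun p _ => h1 p⟩, h2, h3, fun p => ?_⟩
  rw [map_pow]
  exact h4 p

theorem dn_eq (p : ℕ) : dn p = (√(p : ℝ))⁻¹ := by
  unfold dn
  rw [Real.rpow_neg (Nat.cast_nonneg _), ← Real.sqrt_eq_rpow]

theorem half_cpow {p : ℕ} (hp : 0 < p) (γ : ℝ) :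
    (p : ℂ) ^ (-(1 / 2 + γ * I)) = (p : ℂ) ^ (-(γ * I)) * (dn p : ℝ) := by
  have hn0 : (p : ℂ) ≠ 0 := by exact_mod_cast hp.ne'
  rw [neg_add, Complex.cpow_add _ _ hn0, mul_comm]
  congr 1
  unfold dn
  rw [Complex.ofReal_cpow (Nat.cast_nonneg _)]
  push_cast
  rfl

variable {ρ : Gal(L/ℚ) →* Matrix (Fin d) (Fin d) ℂ} {fr : ℕ → Gal(L/ℚ)} {α : ℕ → Fin d → ℂ}

theorem factor_eq (h : ∀ (p : ℕ) (x : ℂ), (1 - x • ρ (fr p)).det = ∏ j, (1 - α p j * x)) (s : ℂ) :
    eulerFactor ρ fr s = loc (Good L) α s := by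
  funext p
  unfold eulerFactor loc
  rw [h]

theorem partial_eq (H : Par (Good L) α)
    (h : ∀ (p : ℕ) (x : ℂ), (1 - x • ρ (fr p)).det = ∏ j, (1 - α p j * x)) (γ : ℝ) (n : ℕ) :
    partialProduct ρ fr γ n = Real.exp (∑ p ∈ up (Good L) (n : ℝ), lsum (sh γ α) p) := by
  have e0 : goodPrimes L n = up (Good L) (n : ℝ) := by
    unfold goodPrimes up
    rw [Nat.floor_natCast]
  unfold partialProduct
  rw [e0, Real.exp_sum]
  refine Finset.prod_congr rfl fun p hp => ?_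
  have hG : Good L p := (mem_up.1 hp).2
  have h5 := H.five p hG
  have e : ∀ j, α p j * (p : ℂ) ^ (-(1 / 2 + γ * I)) = sh γ α p j * (dn p : ℝ) := by
    intro j
    rw [half_cpow (by omega)]
    unfold sh
    ring
  rw [h, norm_prod]
  unfold lsum
  rw [Real.exp_sum]
  refine Finset.prod_congr rfl fun j _ => ?_
  rw [e, Real.exp_log]
  refine lt_of_le_of_ne (norm_nonneg _) (Ne.symm fun hc => ?_)
  have h6 : ‖sh γ α p j * ((dn p : ℝ) : ℂ)‖ ≤ 1 / 2 := by
    rw [norm_mul, (H.shift γ).unit p hG j, one_mul, Complex.norm_real,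
      Real.norm_of_nonneg (Pool.Agent.D0H40.CX.dn_nonneg p)]
    exact Pool.Agent.D0H40.CX.dn_le h5
  have h8 : sh γ α p j * ((dn p : ℝ) : ℂ) = 1 := (sub_eq_zero.1 (norm_eq_zero.1 hc)).symm
  rw [h8, norm_one] at h6
  norm_num at h6

theorem pole_eq (γ : ℝ) (n : ℕ) : poleTerm γ n = 1 / 2 * JJ (kap1 γ) (Real.log n) := by
  unfold poleTerm JJ jj kap1
  rw [← intervalIntegral.integral_const_mul]
  refine intervalIntegral.integral_congr fun v _ => ?_
  ring

variable [IsGalois ℚ L]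

/-- the windows of the squares of the parameters, shifted by `γ ≠ 0` -/
theorem win_zero (H : Par (Good L) α) (hfr : ∀ p, Good L p → IsFrobenius p (fr p))
    (h : ∀ p, (ρ ((fr p) ^ 2)).trace = ∑ j, α p j ^ 2) {γ : ℝ} (hγ : γ ≠ 0) :
    Tendsto (win (Good L) (sh γ α)) atTop (𝓝 0) := by
  classical
  have hD : 0 < 6 * (discr L).natAbs := by
    have : discr L ≠ 0 := discr_ne_zero L
    have : 0 < (discr L).natAbs := Int.natAbs_pos.2 this
    omega
  have hgood : ∀ p : ℕ, p.Prime → ¬ p ∣ 6 * (discr L).natAbs → Good L p := by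
    intro p hp hpD
    have h2 : ¬ p ∣ 6 := fun h => hpD (h.mul_right _)
    refine ⟨hp, ?_, fun h3 => hpD ?_⟩
    · by_contra hc
      have h4 := hp.two_le
      have h5 : p = 2 ∨ p = 3 := by omega
      rcases h5 with h5 | h5 <;> rw [h5] at h2 <;> exact h2 (by norm_num)
    · exact (Int.natCast_dvd.1 h3).mul_left _
  set c : ℕ → ℂ := fun p => if Good L p then ∑ j, α p j ^ 2 else 0 with hc
  have hcl : ∀ g h : Gal(L/ℚ), (ρ ((h⁻¹ * g * h) ^ 2)).trace = (ρ (g ^ 2)).trace := by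
    intro g h
    have e : (h⁻¹ * g * h) ^ 2 = h⁻¹ * g ^ 2 * h := by
      rw [pow_two, pow_two]
      group
    rw [e, map_mul, map_mul, Matrix.trace_mul_comm, ← Matrix.mul_assoc, ← map_mul, mul_inv_cancel, map_one,
      Matrix.one_mul]
  have h1 := frob_mean fr hD (fun p hp hpD => hfr p (hgood p hp hpD)) (fun g => (ρ (g ^ 2)).trace.re)
    (fun g h => by rw [hcl]) (fun p => (c p).re) (fun p hp hpD => by
      rw [hc]
      simp only
      rw [if_pos (hgood p hp hpD), h])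
  have h2 := frob_mean fr hD (fun p hp hpD => hfr p (hgood p hp hpD)) (fun g => (ρ (g ^ 2)).trace.im)
    (fun g h => by rw [hcl]) (fun p => (c p).im) (fun p hp hpD => by
      rw [hc]
      simp only
      rw [if_pos (hgood p hp hpD), h])
  exact win_shift H hγ (c := c) (μ := ⟨(∑ g, (ρ (g ^ 2)).trace.re) / Nat.card Gal(L/ℚ),
    (∑ g, (ρ (g ^ 2)).trace.im) / Nat.card Gal(L/ℚ)⟩) (fun p => by rw [hc]) h1 h2

end Translation

theorem slow_iff {f : ℕ → ℝ} : IsSlow f ↔ Pool.Agent.D0H40.PL.Slow f :=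
  ⟨fun h => ⟨h.pos, h.ratio, h.sub⟩, fun h => ⟨h.pos, h.ratio, h.sub⟩⟩

/-- the leading coefficient -/
theorem exists_lead {F : ℂ → ℂ} (h : MeromorphicAt F (1 / 2)) {m : ℤ}
    (hm : meromorphicOrderAt F (1 / 2) = m) :
    ∃ c : ℝ, 0 < c ∧ Tendsto (fun s : ℂ => ‖F s‖ / ‖s - 1 / 2‖ ^ m) (𝓝[≠] (1 / 2)) (𝓝 c) := by
  obtain ⟨g, hg, hg0, hgF⟩ := (meromorphicOrderAt_eq_int_iff h).1 hm
  refine ⟨‖g (1 / 2)‖, norm_pos_iff.2 hg0, ?_⟩
  have h1 : Tendsto (fun s => ‖g s‖) (𝓝[≠] (1 / 2)) (𝓝 ‖g (1 / 2)‖) :=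
    (hg.continuousAt.tendsto.mono_left nhdsWithin_le_nhds).norm
  refine h1.congr' ?_
  filter_upwards [hgF, self_mem_nhdsWithin] with s h2 h3
  have hs : s - 1 / 2 ≠ 0 := sub_ne_zero.2 h3
  have : ‖s - 1 / 2‖ ^ m ≠ 0 := zpow_ne_zero _ (norm_ne_zero_iff.2 hs)
  rw [h2, smul_eq_mul, norm_mul, norm_zpow, mul_div_cancel_left₀ _ this]

section Orders

open Pool.Agent.D0H40.AR
open Pool.Agent.D0H40.SP

theorem od_eq {n : ℕ} (F : Fin n → ℂ → ℂ) (k : ℕ) (γ : ℝ) (s : ℂ) :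
    od (Tg (fun s => ∏ i, F i (s + γ * I)) γ k) s = ord (total F k) γ (s + γ * I) := by
  have h1 : Tg (fun s => ∏ i, F i (s + γ * I)) γ k = fun s => total F k (s + γ * I) := rfl
  unfold od ord
  rw [h1, order_line, order_line]
  congr 2
  simp only [map_add, map_mul, Complex.conj_ofReal, Complex.conj_I]
  ring

theorem rh_iff {n : ℕ} (F : Fin n → ℂ → ℂ) (k : ℕ) (γ : ℝ) :
    (∀ s : ℂ, 1 / 2 < s.re → od (Tg (fun s => ∏ i, F i (s + γ * I)) γ k) s = 0) ↔
      RH (total F k) γ := by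
  constructor
  · intro h s hs
    have h1 := h (s - γ * I) (by simpa using hs)
    rwa [od_eq, sub_add_cancel] at h1
  · intro h s hs
    rw [od_eq]
    exact h _ (by simpa using hs)

theorem dom_iff' {n : ℕ} (F : Fin n → ℂ → ℂ) (k : ℕ) (γ : ℝ) {Q : WithTop ℤ → Prop} :
    (∃ s : ℝ, 1 / 2 < s ∧ Q (od (Tg (fun s => ∏ i, F i (s + γ * I)) γ k) s) ∧
      ∀ z : ℂ, s < z.re → od (Tg (fun s => ∏ i, F i (s + γ * I)) γ k) z = 0) ↔
    ∃ s : ℝ, 1 / 2 < s ∧ Q (ord (total F k) γ (s + γ * I)) ∧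
      ∀ z : ℂ, s < z.re → ord (total F k) γ z = 0 := by
  refine exists_congr fun s => and_congr_right fun _ => ?_
  rw [od_eq]
  refine and_congr_right fun _ => ?_
  constructor
  · intro h z hz
    have h1 := h (z - γ * I) (by simpa using hz)
    rwa [od_eq, sub_add_cancel] at h1
  · intro h z hz
    rw [od_eq]
    exact h _ (by simpa using hz)

end Orders

/-- **Partial Euler products and the multiplicities of ordinates.** -/
theorem result (L : Type) [Field L] [NumberField L] [IsGalois ℚ L]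
    -- a Frobenius element at every good prime
    (fr : ℕ → Gal(L/ℚ)) (hfr : ∀ p, Good L p → IsFrobenius p (fr p))
    -- representations and their L-functions
    (n : ℕ) (d : Fin n → ℕ) (ρ : (i : Fin n) → Gal(L/ℚ) →* Matrix (Fin (d i)) (Fin (d i)) ℂ)
    (F : Fin n → ℂ → ℂ) (hF : ∀ i, IsContinuation (ρ i) fr (F i))
    -- a point of the critical line, the order of the correction
    (γ : ℝ) (hγ : γ ≠ 0) (k : ℕ) :
    -- the orders and the leading coefficient at `1/2 + iγ`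
    ∃ (m : Fin n → ℤ) (q : ℤ) (c T : ℝ), (∀ i, meromorphicOrderAt (F i) (1 / 2 + γ * I) = m i) ∧
      q = ∑ i, m i - k ∧ 0 < c ∧
      Tendsto (fun s : ℂ => ‖total F k s‖ / ‖s - (1 / 2 + γ * I)‖ ^ (∑ i, m i)) (𝓝[≠] (1 / 2 + γ * I)) (𝓝 c) ∧
      T = Real.exp (q * Real.eulerMascheroniConstant) / c ∧
      -- failure of the Riemann hypothesis
      (¬ RH (total F k) γ → ¬ ZeroDominated (total F k) γ → ¬ PoleDominated (total F k) γ →
        ∀ f : ℕ → ℝ, IsSlow f → ∀ A : ℝ, 0 ≤ A → IsLimitPoint (quot (corrected ρ fr γ k) f) A) ∧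
      (∀ θ : ℝ, 0 ≤ θ → (∃ s : ℂ, 1 / 2 + θ < s.re ∧ ord (total F k) γ s ≠ 0) →
        ((∀ s : ℝ, 1 / 2 + θ < s → 0 ≤ ord (total F k) γ (s + γ * I)) →
          ∃ᶠ N : ℕ in atTop, Real.exp ((N : ℝ) ^ θ) < corrected ρ fr γ k N) ∧
        ((∀ s : ℝ, 1 / 2 + θ < s → ord (total F k) γ (s + γ * I) ≤ 0) →
          ∃ᶠ N : ℕ in atTop, corrected ρ fr γ k N < Real.exp (-(N : ℝ) ^ θ))) ∧
      -- one-sided bounds
      (∀ a : ℝ, (¬ PoleDominated (total F k) γ → (∀ ε : ℝ, 0 < ε → ∀ᶠ N : ℕ in atTop,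
          corrected ρ fr γ k N ≤ Real.log N ^ (a + ε)) → RH (total F k) γ ∧ (q : ℝ) ≤ a) ∧
        (¬ ZeroDominated (total F k) γ → (∀ ε : ℝ, 0 < ε → ∀ᶠ N : ℕ in atTop,
          Real.log N ^ (a - ε) ≤ corrected ρ fr γ k N) → RH (total F k) γ ∧ a ≤ (q : ℝ))) ∧
      -- one-sided limits
      (∀ a : ℝ, (¬ PoleDominated (total F k) γ →
          Tendsto (quot (corrected ρ fr γ k) (logPow a)) atTop (𝓝 0) → RH (total F k) γ ∧ (q : ℝ) < a) ∧
        (¬ ZeroDominated (total F k) γ →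
          Tendsto (quot (corrected ρ fr γ k) (logPow a)) atTop atTop → RH (total F k) γ ∧ a < (q : ℝ))) ∧
      -- two-sided limits
      (∀ a A : ℝ, 0 < A → Tendsto (quot (corrected ρ fr γ k) (logPow a)) atTop (𝓝 A) →
        RH (total F k) γ ∧ a = (q : ℝ) ∧ A = T) ∧
      -- the constant
      (¬ PoleDominated (total F k) γ → ∀ A : ℝ, A < T →
        ∃ᶠ N in atTop, A < quot (corrected ρ fr γ k) (logPow q) N) ∧
      (¬ ZeroDominated (total F k) γ → ∀ A : ℝ, T < A →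
        ∃ᶠ N in atTop, quot (corrected ρ fr γ k) (logPow q) N < A) ∧
      (¬ ZeroDominated (total F k) γ → ¬ PoleDominated (total F k) γ →
        IsLimitPoint (quot (corrected ρ fr γ k) (logPow q)) T ∧
        (Tendsto (quot (corrected ρ fr γ k) (logPow q)) atTop (𝓝 T) ∨ ∃ B : ℝ, B ≠ T ∧ 0 ≤ B ∧
          ∀ v ∈ Set.uIcc T B, IsLimitPoint (quot (corrected ρ fr γ k) (logPow q)) v)) ∧
      -- mean values
      (¬ PoleDominated (total F k) γ → (∀ ε : ℝ, 0 < ε → ∀ᶠ N : ℕ in atTop,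
          corrected ρ fr γ k N ≤ Real.exp ((N : ℝ) ^ ε)) → RH (total F k) γ ∧
        HasMean (fun x => Real.log (corrected ρ fr γ k ⌊x⌋₊ / Real.log x ^ (q : ℝ))) (Real.log T)) ∧
      (¬ ZeroDominated (total F k) γ → (∀ ε : ℝ, 0 < ε → ∀ᶠ N : ℕ in atTop,
          Real.exp (-(N : ℝ) ^ ε) ≤ corrected ρ fr γ k N) → RH (total F k) γ ∧
        HasMean (fun x => Real.log (corrected ρ fr γ k ⌊x⌋₊ / Real.log x ^ (q : ℝ))) (Real.log T)) ∧
      -- the limit points form an interval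
      (∀ f : ℕ → ℝ, IsSlow f → ∀ u v w : ℝ, u ≤ v → v ≤ w → IsLimitPoint (quot (corrected ρ fr γ k) f) u →
        IsLimitPoint (quot (corrected ρ fr γ k) f) w → IsLimitPoint (quot (corrected ρ fr γ k) f) v) := by
  have h := fun i => exists_par (ρ i) fr
  choose α H h1 h2 h3 using h
  have hG : ∀ p, Good L p → p.Prime ∧ 5 ≤ p := fun p hp => ⟨hp.1, good_five hp⟩
  have Hs := fun i => (H i).shift γ
  have Ht := Pool.Agent.D0H40.AR.tot_par (G := Good L) hG Hs
  set β : (i : Fin n) → ℕ → Fin (d i) → ℂ := fun i => Pool.Agent.D0H40.AR.sh γ (α i) with hβ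
  set Φ : ℂ → ℂ := fun s => ∏ i, F i (s + γ * I) with hΦ
  have hprod : ∀ s : ℂ, 1 < s.re →
      HasProd (Pool.Agent.D0H40.AR.loc (Good L) (Pool.Agent.D0H40.AR.tot β) s) (Φ s) := by
    intro s hs
    have h4 : ∀ i ∈ Finset.univ, HasProd (Pool.Agent.D0H40.AR.loc (Good L) (β i) s) (F i (s + γ * I)) := by
      intro i _
      rw [hβ]
      simp only
      rw [Pool.Agent.D0H40.AR.loc_shift good_pos, ← factor_eq (h1 i)]
      exact (hF i).prod _ (by simpa using hs)
    have h5 := hasProd_prod h4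
    have h6 : (fun p => ∏ i, Pool.Agent.D0H40.AR.loc (Good L) (β i) s p) =
        Pool.Agent.D0H40.AR.loc (Good L) (Pool.Agent.D0H40.AR.tot β) s := by
      funext p
      exact (Pool.Agent.D0H40.AR.tot_loc s p).symm
    rwa [h6] at h5
  have hmi : ∀ s : ℂ, 1 / 2 ≤ s.re → ∀ i ∈ Finset.univ, MeromorphicAt (fun s => F i (s + γ * I)) s :=
    fun s hs i _ => Pool.Agent.D0H40.AR.mero_line (hF i).mero γ hs
  have hmero : ∀ s : ℂ, 1 / 2 ≤ s.re → MeromorphicAt Φ s := fun s hs => MeromorphicAt.fun_prod (hmi s hs)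
  have hmero' : ∀ s : ℂ, 1 / 2 < s.re → MeromorphicAt Φ s := fun s hs => hmero s hs.le
  have hhalf : (1 : ℝ) / 2 ≤ ((1 : ℂ) / 2).re := by norm_num
  have hord : ∀ s : ℂ, 1 / 2 ≤ s.re → meromorphicOrderAt Φ s = ∑ i, meromorphicOrderAt (F i) (s + γ * I) := by
    intro s hs
    rw [hΦ, meromorphicOrderAt_fun_prod (hmi s hs)]
    exact Finset.sum_congr rfl fun i _ => Pool.Agent.D0H40.AR.order_line (F i) γ s
  obtain ⟨N, hN⟩ := Ht.order_ne hmero' (hmero _ hhalf) hprod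
  -- the orders
  have hm : ∀ i, ∃ m : ℤ, meromorphicOrderAt (F i) (1 / 2 + γ * I) = m := by
    intro i
    have hp : ∀ s : ℂ, 1 < s.re →
        HasProd (Pool.Agent.D0H40.AR.loc (Good L) (Pool.Agent.D0H40.AR.sh γ (α i)) s) (F i (s + γ * I)) := by
      intro s hs
      rw [Pool.Agent.D0H40.AR.loc_shift good_pos, ← factor_eq (h1 i)]
      exact (hF i).prod _ (by simpa using hs)
    obtain ⟨m, hm⟩ := (Hs i).order_ne (F := fun s => F i (s + γ * I))
      (fun s hs => Pool.Agent.D0H40.AR.mero_line (hF i).mero γ hs.le)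
      (Pool.Agent.D0H40.AR.mero_line (hF i).mero γ hhalf) hp
    rw [Pool.Agent.D0H40.AR.order_line] at hm
    exact ⟨m, hm⟩
  choose m hm using hm
  have hNm : N = ∑ i, m i := by
    rw [hord _ hhalf] at hN
    simp only [hm] at hN
    have h4 : ((∑ i, m i : ℤ) : WithTop ℤ) = (N : WithTop ℤ) := by
      rw [← hN]
      exact WithTop.coe_sum _ _
    rw [WithTop.coe_inj] at h4
    exact h4.symm
  obtain ⟨c₀, hc₀, hlead⟩ := exists_lead (hmero _ hhalf) hN
  -- the windows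
  have hwin : Tendsto (Pool.Agent.D0H40.SP.win (Good L) (Pool.Agent.D0H40.AR.tot β)) atTop (𝓝 0) := by
    have h4 := tendsto_finsetSum (Finset.univ : Finset (Fin n)) fun i _ => win_zero (H i) hfr (h3 i) hγ
    rw [Finset.sum_const_zero] at h4
    refine h4.congr fun u => ?_
    have h5 : ∀ u : ℝ, Pool.Agent.W263.BSD.stp (Pool.Agent.D0H40.SP.bb (Good L) (Pool.Agent.D0H40.AR.tot β)) u =
        ∑ i, Pool.Agent.W263.BSD.stp (Pool.Agent.D0H40.SP.bb (Good L) (β i)) u := by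
      intro u
      unfold Pool.Agent.W263.BSD.stp
      rw [Finset.sum_comm]
      refine Finset.sum_congr rfl fun p _ => ?_
      unfold Pool.Agent.D0H40.SP.bb
      rw [Pool.Agent.D0H40.AR.tot_bG, Finset.sum_div]
    unfold Pool.Agent.D0H40.SP.win
    rw [Finset.sum_sub_distrib, h5, h5]
  have D₀ := Pool.Agent.D0H40.SP.par_PD Ht hmero' (hmero _ hhalf) hprod
  have HL₀ := Pool.Agent.D0H40.SP.par_Lead Ht (hmero _ hhalf) hN hc₀ hlead hwin
  have D := D₀.corr (Pool.Agent.D0H40.SP.kap1_re γ) k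
  have HL := HL₀.corr (Pool.Agent.D0H40.SP.kap1_ne γ) (Pool.Agent.D0H40.SP.kap1_re γ) k
  set κ : ℂ := Pool.Agent.D0H40.SP.kap1 γ with hκ
  set S := Pool.Agent.D0H40.SP.SC (Pool.Agent.D0H40.SP.SS (Good L) (Pool.Agent.D0H40.AR.tot β)) κ k with hS
  have hκ0 : 0 < ‖κ‖ := norm_pos_iff.2 (Pool.Agent.D0H40.SP.kap1_ne γ)
  set q : ℤ := N - k with hq
  have hqM : (2 * N - 2 * (k : ℤ)) = 2 * q := by rw [hq]; ring
  rw [hqM] at HL
  have hRH : Pool.Agent.D0H40.SP.RHm (Pool.Agent.D0H40.SP.PC (Pool.Agent.D0H40.AR.Ph Φ) κ k) ↔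
      RH (total F k) γ :=
    (Pool.Agent.D0H40.SP.PC_rhm hmero' γ k).trans (rh_iff F k γ)
  have hZ : Pool.Agent.D0H40.SP.ZDom (Pool.Agent.D0H40.SP.PC (Pool.Agent.D0H40.AR.Ph Φ) κ k) ↔
      ZeroDominated (total F k) γ :=
    (Pool.Agent.D0H40.SP.PC_dom hmero' γ k).trans (dom_iff' F k γ)
  have hP : Pool.Agent.D0H40.SP.PDom (Pool.Agent.D0H40.SP.PC (Pool.Agent.D0H40.AR.Ph Φ) κ k) ↔
      PoleDominated (total F k) γ :=
    (Pool.Agent.D0H40.SP.PC_dom (Q := fun x => x < 0) hmero' γ k).trans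
      (dom_iff' (Q := fun x => x < 0) F k γ)
  have hpr : ∀ N : ℕ, corrected ρ fr γ k N = Real.exp (S N) := by
    intro N
    unfold corrected
    rw [Finset.prod_congr rfl fun i _ => partial_eq (H i) (h1 i) γ N, ← Real.exp_sum, ← Real.exp_add, pole_eq,
      hS]
    unfold Pool.Agent.D0H40.SP.SC Pool.Agent.D0H40.SP.SS
    congr 1
    have e1 : ∑ p ∈ Pool.Agent.D0H40.AR.up (Good L) (N : ℝ), Pool.Agent.D0H40.AR.lsum
        (Pool.Agent.D0H40.AR.tot β) p = ∑ i, ∑ p ∈ Pool.Agent.D0H40.AR.up (Good L) (N : ℝ),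
          Pool.Agent.D0H40.AR.lsum (β i) p := by
      rw [Finset.sum_comm]
      refine Finset.sum_congr rfl fun p _ => ?_
      unfold Pool.Agent.D0H40.AR.lsum
      rw [Pool.Agent.D0H40.AR.tot_sum (fun a => Real.log ‖1 - a * Pool.Agent.D0H40.CX.dn p‖)]
    rw [e1]
    ring
  have hquot : ∀ f : ℕ → ℝ, quot (corrected ρ fr γ k) f = Pool.Agent.D0H40.SP.qs S f := by
    intro f
    funext N
    unfold quot Pool.Agent.D0H40.SP.qs
    rw [hpr]
  have hlp : ∀ (f : ℕ → ℝ) (A : ℝ), IsLimitPoint (quot (corrected ρ fr γ k) f) A ↔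
      Pool.Agent.D0H40.SP.LPs S f A := by
    intro f A
    rw [hquot]
    rfl
  have hqlog : ∀ a : ℝ, quot (corrected ρ fr γ k) (logPow a) = fun n : ℕ => Real.exp (S n) / Real.log n ^ a := by
    intro a
    rw [hquot]
    rfl
  -- the constant
  set c : ℝ := c₀ * ‖κ‖ ^ k with hc
  have hc0 : 0 < c := by positivity
  set t : ℝ := Pool.Agent.D0H40.SP.thr (2 * q) (c₀ ^ 2 * (‖κ‖ ^ 2) ^ k) (-0) with ht
  have hT : Real.exp (t / 2) = Real.exp (q * Real.eulerMascheroniConstant) / c := by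
    have e1 : c₀ ^ 2 * (‖κ‖ ^ 2) ^ k = c ^ 2 := by
      rw [hc, mul_pow, ← pow_mul, ← pow_mul, mul_comm k 2]
    rw [ht, e1]
    unfold Pool.Agent.D0H40.SP.thr
    rw [Real.log_pow]
    have e : (-0 - ((2 : ℕ) : ℝ) * Real.log c + ((2 * q : ℤ) : ℝ) * Real.eulerMascheroniConstant) / 2 =
        q * Real.eulerMascheroniConstant - Real.log c := by
      push_cast
      ring
    rw [e, Real.exp_sub, Real.exp_log hc0]
  have hctend : Tendsto (fun s : ℂ => ‖total F k s‖ / ‖s - (1 / 2 + γ * I)‖ ^ (∑ i, m i))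
      (𝓝[≠] (1 / 2 + γ * I)) (𝓝 c) := by
    rw [← hNm]
    have t1 : Tendsto (fun s : ℂ => s - γ * I) (𝓝[≠] (1 / 2 + γ * I)) (𝓝[≠] (1 / 2)) := by
      rw [tendsto_nhdsWithin_iff]
      constructor
      · have h4 : Tendsto (fun s : ℂ => s - γ * I) (𝓝 (1 / 2 + γ * I)) (𝓝 (1 / 2 + γ * I - γ * I)) :=
          (continuous_id.sub continuous_const).tendsto _
        rw [add_sub_cancel_right] at h4
        exact h4.mono_left nhdsWithin_le_nhds
      · filter_upwards [self_mem_nhdsWithin] with s hs h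
        refine hs ?_
        have h' : s - γ * I = 1 / 2 := h
        have : s = 1 / 2 + γ * I := by linear_combination h'
        exact this
    have t2 : Tendsto (fun s : ℂ => ‖s - 1‖ ^ k) (𝓝[≠] (1 / 2 + γ * I)) (𝓝 (‖κ‖ ^ k)) := by
      have h4 : Continuous fun s : ℂ => ‖s - 1‖ ^ k := by fun_prop
      have h5 := h4.tendsto (1 / 2 + γ * I)
      have e : ‖(1 : ℂ) / 2 + γ * I - 1‖ = ‖κ‖ := by
        rw [hκ]
        unfold Pool.Agent.D0H40.SP.kap1
        rw [← norm_neg]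
        congr 1
        ring
      rw [e] at h5
      exact h5.mono_left nhdsWithin_le_nhds
    refine ((hlead.comp t1).mul t2).congr fun s => ?_
    simp only [Function.comp_apply, hΦ, sub_add_cancel]
    unfold total
    rw [norm_mul, norm_pow]
    have e : s - γ * I - 1 / 2 = s - (1 / 2 + γ * I) := by ring
    rw [e]
    ring
  have hcast : ((2 * q : ℤ) : ℝ) = 2 * (q : ℝ) := by push_cast; ring
  have hmeanof : (∀ w > 0, Pool.Agent.W263.BSD.LInt (fun u => 2 * S ⌊Real.exp u⌋₊) w) →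
      HasMean (fun x => Real.log (corrected ρ fr γ k ⌊x⌋₊ / Real.log x ^ (q : ℝ)))
        (Real.log (Real.exp (t / 2))) := by
    intro hconv
    have e : ∀ u ∈ Set.Ioi (1 : ℝ), ∀ w : ℝ, Real.log (corrected ρ fr γ k ⌊Real.exp u⌋₊ /
        Real.log (Real.exp u) ^ (q : ℝ)) * Real.exp (-(w * u)) =
        1 / 2 * ((2 * S ⌊Real.exp u⌋₊ - ((2 * q : ℤ) : ℝ) * Real.log u) * Real.exp (-(w * u))) := by
      intro u hu w
      have hu0 : (0 : ℝ) < u := lt_trans one_pos hu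
      rw [hpr, Real.log_exp, Real.log_div (Real.exp_pos _).ne'
        (Real.rpow_pos_of_pos hu0 _).ne', Real.log_exp, Real.log_rpow hu0, hcast]
      ring
    refine ⟨fun w hw => ?_, ?_⟩
    · have h4 := (Pool.Agent.D0H40.SP.mean_int hconv (((2 * q : ℤ) : ℝ)) hw).const_mul (1 / 2)
      exact IntegrableOn.congr_fun h4 (fun u hu => (e u hu w).symm) measurableSet_Ioi
    · rw [Real.log_exp]
      have h4 := (D.mean HL hconv).const_mul (1 / 2)
      have e2 : 1 / 2 * t = t / 2 := by ring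
      rw [← ht, e2] at h4
      refine h4.congr fun w => ?_
      rw [setIntegral_congr_fun measurableSet_Ioi (fun u hu => e u hu w), integral_const_mul]
      ring
  refine ⟨m, q, c, Real.exp (t / 2), hm, by rw [hq, hNm], hc0, hctend, hT, ?_, ?_, ?_, ?_, ?_, ?_, ?_, ?_, ?_,
    ?_, ?_⟩
  · intro g1 g2 g3 f hf A hA
    rw [hlp]
    exact D.wild (fun h => g1 (hRH.1 h)) (fun h => g2 (hZ.1 h)) (fun h => g3 (hP.1 h)) (slow_iff.1 hf) hA
  · rintro θ hθ ⟨s, hs1, hs2⟩
    have hz : ∃ z : ℂ, θ < z.re ∧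
        meromorphicOrderAt (Pool.Agent.D0H40.SP.PC (Pool.Agent.D0H40.AR.Ph Φ) κ k) z ≠ 0 := by
      refine ⟨s - γ * I - 1 / 2, ?_, ?_⟩
      · rw [Complex.sub_re, Pool.Agent.D0H40.SP.half_re]
        simp only [Complex.sub_re, Complex.re_ofReal_mul, Complex.I_re, mul_zero, sub_zero]
        linarith
      · rw [Pool.Agent.D0H40.SP.PC_od hmero' γ k (s := s - γ * I) (by
          simp only [Complex.sub_re, Complex.re_ofReal_mul, Complex.I_re, mul_zero, sub_zero]
          linarith), od_eq, sub_add_cancel]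
        exact hs2
    have hreal : ∀ w : ℝ, θ < w →
        meromorphicOrderAt (Pool.Agent.D0H40.SP.PC (Pool.Agent.D0H40.AR.Ph Φ) κ k) (w : ℂ) =
        ord (total F k) γ (((1 / 2 + w : ℝ) : ℂ) + γ * I) := by
      intro w hw
      have h4 := Pool.Agent.D0H40.SP.PC_od hmero' γ k (s := ((1 / 2 + w : ℝ) : ℂ))
        (by rw [Complex.ofReal_re]; linarith)
      have e : (((1 / 2 + w : ℝ) : ℂ)) - 1 / 2 = (w : ℂ) := by
        push_cast
        ring
      rw [e, od_eq] at h4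
      exact h4
    constructor
    · intro h4
      refine (D.large hθ hz fun w hw => ?_).mono fun n hn => ?_
      · rw [hreal w hw]
        exact h4 _ (by linarith)
      · rw [hpr]
        exact Real.exp_lt_exp.2 hn
    · intro h4
      refine (D.small hθ hz fun w hw => ?_).mono fun n hn => ?_
      · rw [hreal w hw]
        exact h4 _ (by linarith)
      · rw [hpr]
        exact Real.exp_lt_exp.2 hn
  · intro a
    constructor
    · intro g h
      obtain ⟨h4, h5⟩ := D.one_upper HL (ρ := a) (fun h => g (hP.1 h)) fun ε hε => by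
        filter_upwards [h ε hε] with n hn
        rw [← hpr]
        exact hn
      refine ⟨hRH.1 h4, ?_⟩
      rw [hcast] at h5
      linarith
    · intro g h
      obtain ⟨h4, h5⟩ := D.one_lower HL (ρ := a) (fun h => g (hZ.1 h)) fun ε hε => by
        filter_upwards [h ε hε] with n hn
        rw [← hpr]
        exact hn
      refine ⟨hRH.1 h4, ?_⟩
      rw [hcast] at h5
      linarith
  · intro a
    constructor
    · intro g h
      rw [hqlog] at h
      obtain ⟨h4, h5⟩ := D.lim_zero HL (fun h => g (hP.1 h)) h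
      refine ⟨hRH.1 h4, ?_⟩
      rw [hcast] at h5
      linarith
    · intro g h
      rw [hqlog] at h
      obtain ⟨h4, h5⟩ := D.lim_top HL (fun h => g (hZ.1 h)) h
      refine ⟨hRH.1 h4, ?_⟩
      rw [hcast] at h5
      linarith
  · intro a A hA h
    rw [hqlog] at h
    obtain ⟨h4, h5, h6⟩ := D.lim_pos HL hA h
    exact ⟨hRH.1 h4, h5, h6⟩
  · intro g A hA
    rw [hqlog]
    exact D.above HL (fun h => g (hP.1 h)) hA
  · intro g A hA
    rw [hqlog]
    exact D.below HL (fun h => g (hZ.1 h)) hA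
  · intro g1 g2
    have h4 := D.limit_point HL (fun h => g1 (hZ.1 h)) (fun h => g2 (hP.1 h))
    refine ⟨(hlp _ _).2 h4, ?_⟩
    by_cases hn : Tendsto (quot (corrected ρ fr γ k) (logPow q)) atTop (𝓝 (Real.exp (t / 2)))
    · exact Or.inl hn
    · right
      have hsl := Pool.Agent.D0H40.PL.slow_log (q : ℝ)
      have hn' : ¬ Tendsto (fun n => Pool.Agent.D0H40.SP.qs S (fun n : ℕ => Real.log (n : ℝ) ^ (q : ℝ)) n)
          atTop (𝓝 (Real.exp (t / 2))) := by
        intro h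
        apply hn
        rw [hquot]
        exact h
      obtain ⟨B, hB1, hB2, hB3⟩ := Pool.Agent.D0H40.SP.interval D.step hsl.pos hsl.ratio h4 hn'
      exact ⟨B, hB1, hB2, fun v hv => (hlp _ _).2 (hB3 v hv)⟩
  · intro g h
    have h4 : ∀ ε : ℝ, 0 < ε → ∀ᶠ n : ℕ in atTop, S n ≤ (n : ℝ) ^ ε := by
      intro ε hε
      filter_upwards [h ε hε] with n hn
      rw [hpr, Real.exp_le_exp] at hn
      exact hn
    have h5 := D.rh_le (fun h => g (hP.1 h)) h4
    exact ⟨hRH.1 h5, hmeanof (D.conv_le h5 h4)⟩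
  · intro g h
    have h4 : ∀ ε : ℝ, 0 < ε → ∀ᶠ n : ℕ in atTop, -(n : ℝ) ^ ε ≤ S n := by
      intro ε hε
      filter_upwards [h ε hε] with n hn
      rw [hpr, Real.exp_le_exp] at hn
      exact hn
    have h5 := D.rh_ge (fun h => g (hZ.1 h)) h4
    exact ⟨hRH.1 h5, hmeanof (D.conv_ge h5 h4)⟩
  · intro f hf u v w huv hvw hu hw
    rw [hlp] at hu hw ⊢
    exact Pool.Agent.D0H40.SP.LPs.between D.step hf.pos hf.ratio huv hvw hu hw

end Pool.Agent.Results.MP_347b49_nt.CorrectedProducts
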