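import Pool.Agent.D0H40.AR.Shift
import Pool.Agent.D0H40.AR.Frob
import Pool.Agent.D0H40.AR.Eig

/-!
# The multiplicities of the ordinates of the zeros of Artin L-functions as biases of finite sums

Let `L/ℚ` be a finite Galois extension and `ρ_1, …, ρ_n` representations of `Gal(L/ℚ)` with characters `χ_i`,
for example the irreducible ones, each once.  The Artin L-functions `L(s, χ_i)` are meromorphic (Brauer); let
`m_i(γ)` be the order of `L(s, χ_i)` at `1/2 + iγ`, `γ ≠ 0`.  (We leave out the Euler factors at `2`, `3` and at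
the ramified primes.  The one at `p` can only have poles on `Re s = 0`.)  Then the multiplicity of `γ > 0` in
the multiset `Γ` of the problem is `m(γ) = ∑ m_i(γ)` if there are no poles at `1/2 + iγ`.
For real numbers `k > 1` and `τ` consider the finite sums

`S_{k,τ}(X) = ∑_{p ≤ X} exp (-(1 + iτ) (log p)^k / (log X)^(k-1)) ∑_i Re (χ_i(Frob_p) p^(-iγ)) / √p`,
`W_{k,τ}(X) = ∑_{p ≤ X} exp (-(1 + iτ) (log p)^k / (log X)^(k-1)) ∑_i log |det (1 - p^(-1/2-iγ) ρ_i(Frob_p))|`.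

* `S_{k,τ}(X) / log log X → -(1 - 1/k) a` for some `(k, τ)` if and only if `a = m(γ)`, and
  `W_{k,τ}(X) / log log X → (1 - 1/k) a` for some `(k, τ)` if and only if `a = m(γ)`, and then
  `W_{k,τ}(X) = (1 - 1/k) a log log X + O(1)` for some `(k, τ)`.  For a given `(k, τ)` the two laws are
  equivalent.  At the points `γ ≠ 0` the Frobenius–Schur indicators play no role.
* For finitely many `γ` one pair `(k, τ)` can be used, and it gives all the `m_i(γ)`.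
* `|S_{k,τ}(X)| ≤ X^(o(1))` if and only if `∏ L(s, χ_i) conj L(s', χ_i)`, `s'` the image of `s` under
  the reflection in the line `Im s = γ`, has no zeros and no poles in the sector
  `|arg (s - 1/2 - iγ) - arctan τ / k| < (π/2)(1 - 1/k)`.
* The part of statement 1 which says that no value occurs twice in `Γ` holds if and only if for all `γ > 0` the
  bias `a` is at most `1`.

The proof uses Chebotarev's theorem with natural density and the prime number theorem for the sums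
`∑ χ(Frob_p²) p^(-1-2iγ)`.
-/

set_option autoImplicit false

namespace Pool.Agent.Results.MP_347b49_nt.OrdinatesAsBiases

open Filter Topology NumberField Complex
open scoped ComplexConjugate

section Defs

variable {L : Type} [Field L] [NumberField L] {d : ℕ}

/-- `p > 3` is a prime which is unramified in `L`. -/
def Good (L : Type) [Field L] [NumberField L] (p : ℕ) : Prop :=
  p.Prime ∧ 3 < p ∧ ¬ (p : ℤ) ∣ discr L

/-- `σ` is a Frobenius element at `p`: there is a maximal ideal `Q` of `𝓞 L` which contains `p` with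
`σ x ≡ x^p` modulo `Q` for all `x ∈ 𝓞 L`. -/
def IsFrobenius (p : ℕ) (σ : Gal(L/ℚ)) : Prop :=
  ∃ Q : Ideal (𝓞 L), Q.IsMaximal ∧ (p : 𝓞 L) ∈ Q ∧ ∀ x : 𝓞 L, σ • x - x ^ p ∈ Q

/-- the Euler factor `det (1 - p^(-s) ρ(Frob_p))⁻¹` of the good primes, and `1` for the other `p` -/
noncomputable def eulerFactor (ρ : Gal(L/ℚ) →* Matrix (Fin d) (Fin d) ℂ) (fr : ℕ → Gal(L/ℚ)) (s : ℂ)
    (p : ℕ) : ℂ :=
  open Classical in if Good L p then ((1 - (p : ℂ) ^ (-s) • ρ (fr p)).det)⁻¹ else 1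

/-- `F` is the meromorphic continuation of the (incomplete) Artin L-function, a convergent Euler product for
`Re s > 1`, to `Re s ≥ 1/2`. -/
structure IsContinuation (ρ : Gal(L/ℚ) →* Matrix (Fin d) (Fin d) ℂ) (fr : ℕ → Gal(L/ℚ)) (F : ℂ → ℂ) :
    Prop where
  mero : ∀ s : ℂ, 1 / 2 ≤ s.re → MeromorphicAt F s
  prod : ∀ s : ℂ, 1 < s.re → HasProd (eulerFactor ρ fr s) (F s)

/-- the good primes up to `X` -/
noncomputable def goodPrimes (L : Type) [Field L] [NumberField L] (X : ℝ) : Finset ℕ :=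
  open Classical in (Finset.range (⌊X⌋₊ + 1)).filter (Good L)

/-- the weight `exp (-(1 + iτ) (log p)^k / (log X)^(k-1))` -/
noncomputable def weight (k τ X : ℝ) (p : ℕ) : ℂ :=
  exp (-((1 + τ * I) * ((Real.log p) ^ k / (Real.log X) ^ (k - 1) : ℝ)))

/-- the weighted sum of `log |det (1 - p^(-1/2-iγ) ρ(Frob_p))|` -/
noncomputable def logSum (ρ : Gal(L/ℚ) →* Matrix (Fin d) (Fin d) ℂ) (fr : ℕ → Gal(L/ℚ)) (γ k τ X : ℝ) : ℂ :=
  ∑ p ∈ goodPrimes L X, weight k τ X p *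
    (Real.log ‖(1 - (p : ℂ) ^ (-(1 / 2 + γ * I)) • ρ (fr p)).det‖ : ℝ)

/-- the weighted sum of `Re (χ(Frob_p) p^(-iγ)) / √p` -/
noncomputable def charSum (ρ : Gal(L/ℚ) →* Matrix (Fin d) (Fin d) ℂ) (fr : ℕ → Gal(L/ℚ)) (γ k τ X : ℝ) : ℂ :=
  ∑ p ∈ goodPrimes L X, weight k τ X p *
    (((ρ (fr p)).trace * (p : ℂ) ^ (-(γ * I))).re / √(p : ℝ) : ℝ)

/-- `W(X) = (1 - 1/k) a log log X + O(1)` -/
def Law (W : ℝ → ℂ) (k : ℝ) (a : ℂ) : Prop :=
  ∃ C : ℝ, ∀ᶠ X : ℝ in atTop, ‖W X - (1 - 1 / k) * a * (Real.log (Real.log X) : ℝ)‖ ≤ C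

/-- `W(X) / log log X → (1 - 1/k) a` -/
def WeakLaw (W : ℝ → ℂ) (k : ℝ) (a : ℂ) : Prop :=
  Tendsto (fun X : ℝ => W X / (Real.log (Real.log X) : ℝ)) atTop (𝓝 ((1 - 1 / k) * a))

/-- `|W(X)| ≤ X^(o(1))` -/
def Slow (W : ℝ → ℂ) : Prop := ∀ ε : ℝ, 0 < ε → ∀ᶠ X : ℝ in atTop, ‖W X‖ ≤ X ^ ε

/-- The sector with vertex `1/2 + iγ`: `s ≠ 1/2 + iγ`, `|arg (s - 1/2 - iγ) - arctan τ / k| < (π/2)(1 - 1/k)`. -/
def Sector (γ k τ : ℝ) : Set ℂ :=
  {s | s ≠ 1 / 2 + γ * I ∧ |arg (s - (1 / 2 + γ * I)) - Real.arctan τ / k| < Real.pi / 2 * (1 - 1 / k)}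

/-- `∏_i F_i(s) conj F_i(s')`, `s' = conj s + 2iγ`, has order zero at the points of `U`. -/
def NoZerosNoPoles {n : ℕ} (F : Fin n → ℂ → ℂ) (γ : ℝ) (U : Set ℂ) : Prop :=
  ∀ s ∈ U, ∑ i, meromorphicOrderAt (F i) s + ∑ i, meromorphicOrderAt (F i) (conj s + 2 * γ * I) = 0

end Defs

/-! ### Translation to the definitions of the imported files -/

section Translation

variable {L : Type} [Field L] [NumberField L] {d : ℕ}

open Pool.Agent.D0H40.AR
open Pool.Agent.D0H40.CX (dn)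
open Pool.Agent.W401.Cheb (M)

theorem good_five {p : ℕ} (hp : Good L p) : 5 ≤ p := by
  have h5 := hp.2.1
  rcases Nat.lt_or_ge 4 p with h6 | h6
  · omega
  · exfalso
    have h7 : p = 4 := by omega
    have h8 := hp.1
    rw [h7] at h8
    exact absurd h8 (by decide)

theorem good_pos (p : ℕ) (hp : Good L p) : 0 < p := hp.1.pos

/-- the parameters -/
theorem exists_par (ρ : Gal(L/ℚ) →* Matrix (Fin d) (Fin d) ℂ) (fr : ℕ → Gal(L/ℚ)) :
    ∃ α : ℕ → Fin d → ℂ, Par (Good L) α ∧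
      (∀ (p : ℕ) (x : ℂ), (1 - x • ρ (fr p)).det = ∏ j, (1 - α p j * x)) ∧
      (∀ p, (ρ (fr p)).trace = ∑ j, α p j) ∧
      ∀ p, (ρ ((fr p) ^ 2)).trace = ∑ j, α p j ^ 2 := by
  have hpow : ∀ g : Gal(L/ℚ), (ρ g) ^ (Nat.card Gal(L/ℚ)) = 1 := fun g => by
    rw [← map_pow, pow_card_eq_one', map_one]
  have h := fun p : ℕ => eig (M := ρ (fr p)) (n := Nat.card Gal(L/ℚ)) Nat.card_pos (hpow _)
  choose α h1 h2 h3 h4 using h
  refine ⟨α, ⟨fun p hp => hp.1, fun p hp => good_five hp, fun p _ => h1 p⟩, h2, h3, fun p => ?_⟩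
  rw [map_pow]
  exact h4 p

theorem dn_eq (p : ℕ) : dn p = (√(p : ℝ))⁻¹ := by
  unfold dn
  rw [Real.rpow_neg (Nat.cast_nonneg _), ← Real.sqrt_eq_rpow]

theorem half_cpow {p : ℕ} (hp : 0 < p) (γ : ℝ) :
    (p : ℂ) ^ (-(1 / 2 + γ * I)) = (p : ℂ) ^ (-(γ * I)) * (dn p : ℝ) := by
  have hn0 : (p : ℂ) ≠ 0 := by exact_mod_cast hp.ne'
  rw [neg_add, Complex.cpow_add _ _ hn0, mul_comm]
  congr 1
  unfold dn
  rw [Complex.ofReal_cpow (Nat.cast_nonneg _)]
  push_cast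
  rfl

variable {ρ : Gal(L/ℚ) →* Matrix (Fin d) (Fin d) ℂ} {fr : ℕ → Gal(L/ℚ)} {α : ℕ → Fin d → ℂ}

theorem factor_eq (h : ∀ (p : ℕ) (x : ℂ), (1 - x • ρ (fr p)).det = ∏ j, (1 - α p j * x)) (s : ℂ) :
    eulerFactor ρ fr s = loc (Good L) α s := by
  funext p
  unfold eulerFactor loc
  rw [h]

theorem logSum_eq (H : Par (Good L) α)
    (h : ∀ (p : ℕ) (x : ℂ), (1 - x • ρ (fr p)).det = ∏ j, (1 - α p j * x)) (γ k τ : ℝ) :
    logSum ρ fr γ k τ = Lw (Good L) (sh γ α) k τ := by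
  funext X
  unfold logSum Lw
  refine Finset.sum_congr rfl fun p hp => ?_
  have hG : Good L p := (mem_up.1 hp).2
  have h5 := H.five p hG
  congr 2
  have e : ∀ j, α p j * (p : ℂ) ^ (-(1 / 2 + γ * I)) = sh γ α p j * (dn p : ℝ) := by
    intro j
    rw [half_cpow (by omega)]
    unfold sh
    ring
  rw [h, norm_prod, Real.log_prod]
  · unfold lsum
    simp only [e]
  · intro j _ hc
    rw [e] at hc
    have h6 : ‖sh γ α p j * ((dn p : ℝ) : ℂ)‖ ≤ 1 / 2 := by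
      rw [norm_mul, (H.shift γ).unit p hG j, one_mul, Complex.norm_real,
        Real.norm_of_nonneg (Pool.Agent.D0H40.CX.dn_nonneg p)]
      exact Pool.Agent.D0H40.CX.dn_le h5
    have h8 : sh γ α p j * ((dn p : ℝ) : ℂ) = 1 := (sub_eq_zero.1 (norm_eq_zero.1 hc)).symm
    rw [h8, norm_one] at h6
    norm_num at h6

theorem charSum_eq (h : ∀ p, (ρ (fr p)).trace = ∑ j, α p j) (γ k τ : ℝ) :
    charSum ρ fr γ k τ = Sw (Good L) (sh γ α) k τ := by
  funext X
  unfold charSum Sw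
  refine Finset.sum_congr rfl fun p _ => ?_
  congr 2
  unfold ssum sh
  rw [h, dn_eq, div_eq_mul_inv, Finset.sum_mul]

variable [IsGalois ℚ L]

/-- the squares of the parameters, shifted by `γ ≠ 0` -/
theorem ml_shift (hfr : ∀ p, Good L p → IsFrobenius p (fr p))
    (h : ∀ p, (ρ ((fr p) ^ 2)).trace = ∑ j, α p j ^ 2) {γ : ℝ} (hγ : γ ≠ 0) :
    ML (bG (Good L) (sh γ α)) 0 := by
  classical
  have hD : 0 < 6 * (discr L).natAbs := by
    have : discr L ≠ 0 := discr_ne_zero L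
    have : 0 < (discr L).natAbs := Int.natAbs_pos.2 this
    omega
  have hgood : ∀ p : ℕ, p.Prime → ¬ p ∣ 6 * (discr L).natAbs → Good L p := by
    intro p hp hpD
    have h2 : ¬ p ∣ 6 := fun h => hpD (h.mul_right _)
    refine ⟨hp, ?_, fun h3 => hpD ?_⟩
    · by_contra hc
      have h4 := hp.two_le
      have h5 : p = 2 ∨ p = 3 := by omega
      rcases h5 with h5 | h5 <;> rw [h5] at h2 <;> exact h2 (by norm_num)
    · exact (Int.natCast_dvd.1 h3).mul_left _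
  set c : ℕ → ℂ := fun p => if Good L p then ∑ j, α p j ^ 2 else 0 with hc
  have hcl : ∀ g h : Gal(L/ℚ), (ρ ((h⁻¹ * g * h) ^ 2)).trace = (ρ (g ^ 2)).trace := by
    intro g h
    have e : (h⁻¹ * g * h) ^ 2 = h⁻¹ * g ^ 2 * h := by
      rw [pow_two, pow_two]
      group
    rw [e, map_mul, map_mul, Matrix.trace_mul_comm, ← Matrix.mul_assoc, ← map_mul, mul_inv_cancel, map_one,
      Matrix.one_mul]
  have h1 := frob_mean fr hD (fun p hp hpD => hfr p (hgood p hp hpD)) (fun g => (ρ (g ^ 2)).trace.re)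
    (fun g h => by rw [hcl]) (fun p => (c p).re) (fun p hp hpD => by
      rw [hc]
      simp only
      rw [if_pos (hgood p hp hpD), h])
  have h2 := frob_mean fr hD (fun p hp hpD => hfr p (hgood p hp hpD)) (fun g => (ρ (g ^ 2)).trace.im)
    (fun g h => by rw [hcl]) (fun p => (c p).im) (fun p hp hpD => by
      rw [hc]
      simp only
      rw [if_pos (hgood p hp hpD), h])
  have h3 := ML_osc (θ := 2 * γ) (by simpa using hγ) (c := c)
    (μ := ⟨(∑ g, (ρ (g ^ 2)).trace.re) / Nat.card Gal(L/ℚ), (∑ g, (ρ (g ^ 2)).trace.im) / Nat.card Gal(L/ℚ)⟩)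
    h1 h2
  have h4 := bG_shift (G := Good L) (α := α) good_pos γ (c := c) (fun p => by rw [hc])
  rw [h4]
  exact h3

end Translation

section Laws

open Pool.Agent.D0H40.AR (WL SL)

theorem loglog_tendsto : Tendsto (fun X : ℝ => Real.log (Real.log X)) atTop atTop :=
  Real.tendsto_log_atTop.comp Real.tendsto_log_atTop

theorem law_iff (W : ℝ → ℂ) (k : ℝ) (a : ℂ) : Law W k a ↔ SL W k a := by
  unfold Law SL Pool.Agent.D0H40.CX.XLaw
  simp only [zero_mul, zero_add]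

theorem weakLaw_iff (W : ℝ → ℂ) (k : ℝ) (ρ : ℂ) : WeakLaw W k ρ ↔ WL W k ρ := by
  unfold WeakLaw WL Pool.Agent.D0H40.CX.XLaw
  have hl := loglog_tendsto
  constructor
  · intro h ε hε
    refine ⟨0, ?_⟩
    rw [Metric.tendsto_nhds] at h
    filter_upwards [h ε hε, hl.eventually (eventually_gt_atTop 0)] with X h1 h2
    have h3 : ((Real.log (Real.log X) : ℝ) : ℂ) ≠ 0 := by exact_mod_cast h2.ne'
    rw [dist_eq_norm] at h1
    have e : W X - (1 - 1 / k) * ρ * (Real.log (Real.log X) : ℝ) =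
        (W X / (Real.log (Real.log X) : ℝ) - (1 - 1 / k) * ρ) * (Real.log (Real.log X) : ℝ) := by
      field_simp
    rw [e, norm_mul, Complex.norm_real, Real.norm_eq_abs, abs_of_pos h2, add_zero]
    exact mul_le_mul_of_nonneg_right h1.le h2.le
  · intro h
    rw [Metric.tendsto_nhds]
    intro ε hε
    obtain ⟨C, hC⟩ := h (ε / 2) (half_pos hε)
    filter_upwards [hC, hl.eventually (eventually_gt_atTop 0),
      hl.eventually (eventually_gt_atTop (C / (ε / 2)))] with X h1 h2 h3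
    have h4 : ((Real.log (Real.log X) : ℝ) : ℂ) ≠ 0 := by exact_mod_cast h2.ne'
    rw [dist_eq_norm]
    have e : W X / (Real.log (Real.log X) : ℝ) - (1 - 1 / k) * ρ =
        (W X - (1 - 1 / k) * ρ * (Real.log (Real.log X) : ℝ)) / (Real.log (Real.log X) : ℝ) := by
      field_simp
    rw [e, norm_div, Complex.norm_real, Real.norm_eq_abs, abs_of_pos h2, div_lt_iff₀ h2]
    rw [div_lt_iff₀ (half_pos hε)] at h3
    refine lt_of_le_of_lt h1 ?_
    have e2 : ε * Real.log (Real.log X) = ε / 2 * Real.log (Real.log X) + Real.log (Real.log X) * (ε / 2) := by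
      ring
    rw [e2]
    linarith

end Laws

section Main

open Pool.Agent.D0H40.AR

variable {L : Type} [Field L] [NumberField L] [IsGalois ℚ L] {fr : ℕ → Gal(L/ℚ)} {n : ℕ}
  {d : Fin n → ℕ} {ρ : (i : Fin n) → Gal(L/ℚ) →* Matrix (Fin (d i)) (Fin (d i)) ℂ} {F : Fin n → ℂ → ℂ}

/-- everything for one `γ` -/
theorem one_point (hfr : ∀ p, Good L p → IsFrobenius p (fr p)) (hF : ∀ i, IsContinuation (ρ i) fr (F i))
    {γ : ℝ} (hγ : γ ≠ 0) : ∃ m : Fin n → ℤ,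
      (∀ i, meromorphicOrderAt (F i) (1 / 2 + γ * I) = m i) ∧
      (∀ a : ℂ,
        ((∃ k τ : ℝ, 1 < k ∧ WeakLaw (fun X => ∑ i, charSum (ρ i) fr γ k τ X) k (-a)) ↔ a = ∑ i, (m i : ℂ)) ∧
        ((∃ k τ : ℝ, 1 < k ∧ WeakLaw (fun X => ∑ i, logSum (ρ i) fr γ k τ X) k a) ↔ a = ∑ i, (m i : ℂ)) ∧
        ((∃ k τ : ℝ, 1 < k ∧ Law (fun X => ∑ i, logSum (ρ i) fr γ k τ X) k a) ↔ a = ∑ i, (m i : ℂ))) ∧
      (∀ k τ : ℝ, 1 < k → ∀ a : ℂ, (WeakLaw (fun X => ∑ i, logSum (ρ i) fr γ k τ X) k a ↔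
        WeakLaw (fun X => ∑ i, charSum (ρ i) fr γ k τ X) k (-a))) ∧
      (∀ k τ : ℝ, 1 < k → (Slow (fun X => ∑ i, charSum (ρ i) fr γ k τ X) ↔
        NoZerosNoPoles F γ (Sector γ k τ))) := by
  have h := fun i => exists_par (ρ i) fr
  choose α H h1 h2 h3 using h
  have hG : ∀ p, Good L p → p.Prime ∧ 5 ≤ p := fun p hp => ⟨hp.1, good_five hp⟩
  have Hs := fun i => (H i).shift γ
  have Ht := tot_par (G := Good L) hG Hs
  set β : (i : Fin n) → ℕ → Fin (d i) → ℂ := fun i => sh γ (α i) with hβ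
  set Φ : ℂ → ℂ := fun s => ∏ i, F i (s + γ * I) with hΦ
  have hprod : ∀ s : ℂ, 1 < s.re → HasProd (loc (Good L) (tot β) s) (Φ s) := by
    intro s hs
    have h4 : ∀ i ∈ Finset.univ, HasProd (loc (Good L) (β i) s) (F i (s + γ * I)) := by
      intro i _
      rw [hβ]
      simp only
      rw [loc_shift good_pos, ← factor_eq (h1 i)]
      exact (hF i).prod _ (by simpa using hs)
    have h5 := hasProd_prod h4
    have h6 : (fun p => ∏ i, loc (Good L) (β i) s p) = loc (Good L) (tot β) s := by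
      funext p
      exact (tot_loc s p).symm
    rwa [h6] at h5
  have hmi : ∀ s : ℂ, 1 / 2 ≤ s.re → ∀ i ∈ Finset.univ, MeromorphicAt (fun s => F i (s + γ * I)) s :=
    fun s hs i _ => mero_line (hF i).mero γ hs
  have hmero : ∀ s : ℂ, 1 / 2 ≤ s.re → MeromorphicAt Φ s := fun s hs => MeromorphicAt.fun_prod (hmi s hs)
  have hhalf : (1 : ℝ) / 2 ≤ ((1 : ℂ) / 2).re := by norm_num
  have hord : ∀ s : ℂ, 1 / 2 ≤ s.re → meromorphicOrderAt Φ s = ∑ i, meromorphicOrderAt (F i) (s + γ * I) := by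
    intro s hs
    rw [hΦ, meromorphicOrderAt_fun_prod (hmi s hs)]
    exact Finset.sum_congr rfl fun i _ => order_line (F i) γ s
  obtain ⟨N, hN⟩ := Ht.order_ne (fun s hs => hmero s hs.le) (hmero _ hhalf) hprod
  -- the orders
  have hm : ∀ i, ∃ m : ℤ, meromorphicOrderAt (F i) (1 / 2 + γ * I) = m := by
    intro i
    have hp : ∀ s : ℂ, 1 < s.re → HasProd (loc (Good L) (sh γ (α i)) s) (F i (s + γ * I)) := by
      intro s hs
      rw [loc_shift good_pos, ← factor_eq (h1 i)]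
      exact (hF i).prod _ (by simpa using hs)
    obtain ⟨m, hm⟩ := (Hs i).order_ne (F := fun s => F i (s + γ * I))
      (fun s hs => mero_line (hF i).mero γ hs.le) (mero_line (hF i).mero γ hhalf) hp
    rw [order_line] at hm
    exact ⟨m, hm⟩
  choose m hm using hm
  have hNm : (N : ℂ) = ∑ i, (m i : ℂ) := by
    rw [hord _ hhalf] at hN
    simp only [hm] at hN
    have h4 : ((∑ i, m i : ℤ) : WithTop ℤ) = (N : WithTop ℤ) := by
      rw [← hN]
      exact WithTop.coe_sum _ _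
    rw [WithTop.coe_inj] at h4
    rw [← h4]
    push_cast
    rfl
  have e1 : ∀ k τ : ℝ, (fun X => ∑ i, logSum (ρ i) fr γ k τ X) = Lw (Good L) (tot β) k τ := by
    intro k τ
    funext X
    rw [tot_Lw]
    exact Finset.sum_congr rfl fun i _ => by rw [logSum_eq (H i) (h1 i)]
  have e2 : ∀ k τ : ℝ, (fun X => ∑ i, charSum (ρ i) fr γ k τ X) = Sw (Good L) (tot β) k τ := by
    intro k τ
    funext X
    rw [tot_Sw]
    exact Finset.sum_congr rfl fun i _ => by rw [charSum_eq (ρ := ρ i) (fr := fr) (h2 i)]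
  have hml : ML (bG (Good L) (tot β)) 0 := by
    have h4 : bG (Good L) (tot β) = fun p => ∑ i, bG (Good L) (β i) p := by
      funext p
      exact tot_bG p
    rw [h4]
    exact ML_sum _ _ fun i _ => ml_shift hfr (h3 i) hγ
  have hboth : ∀ k τ : ℝ, 1 < k → ∀ a : ℂ, (WeakLaw (fun X => ∑ i, logSum (ρ i) fr γ k τ X) k a ↔
      WeakLaw (fun X => ∑ i, charSum (ρ i) fr γ k τ X) k (-a)) := by
    intro k τ hk a
    rw [e1, e2, weakLaw_iff, weakLaw_iff]
    have h4 := Ht.law_bias_ML hml hk τ a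
    rwa [Complex.ofReal_zero, zero_div, add_zero] at h4
  have hbwd : ∀ (a : ℂ) (k τ : ℝ), 1 < k → WeakLaw (fun X => ∑ i, logSum (ρ i) fr γ k τ X) k a →
      a = ∑ i, (m i : ℂ) := by
    intro a k τ hk h4
    rw [weakLaw_iff, e1] at h4
    obtain ⟨N', h5, h6⟩ := Ht.bwd (fun s hs => hmero s hs.le) (hmero _ hhalf) hprod hk τ h4
    rw [hN, WithTop.coe_inj] at h5
    rw [h6, ← h5, hNm]
  have hfwd : ∃ k τ : ℝ, 1 < k ∧ Law (fun X => ∑ i, logSum (ρ i) fr γ k τ X) k (∑ i, (m i : ℂ)) := by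
    obtain ⟨k, τ, hk, h4⟩ := Ht.fwd (fun s hs => hmero s hs.le) (hmero _ hhalf) hprod hN
    refine ⟨k, τ, hk, ?_⟩
    rw [law_iff, e1, ← hNm]
    exact h4
  have hweak : ∀ (a : ℂ) (k τ : ℝ), Law (fun X => ∑ i, logSum (ρ i) fr γ k τ X) k a →
      WeakLaw (fun X => ∑ i, logSum (ρ i) fr γ k τ X) k a := by
    intro a k τ h4
    rw [law_iff] at h4
    rw [weakLaw_iff]
    exact SL_WL h4
  refine ⟨m, hm, fun a => ⟨⟨?_, ?_⟩, ⟨?_, ?_⟩, ⟨?_, ?_⟩⟩, hboth, fun k τ hk => ?_⟩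
  · rintro ⟨k, τ, hk, h4⟩
    exact hbwd a k τ hk ((hboth k τ hk a).2 h4)
  · rintro rfl
    obtain ⟨k, τ, hk, h4⟩ := hfwd
    exact ⟨k, τ, hk, (hboth k τ hk _).1 (hweak _ _ _ h4)⟩
  · rintro ⟨k, τ, hk, h4⟩
    exact hbwd a k τ hk h4
  · rintro rfl
    obtain ⟨k, τ, hk, h4⟩ := hfwd
    exact ⟨k, τ, hk, hweak _ _ _ h4⟩
  · rintro ⟨k, τ, hk, h4⟩
    exact hbwd a k τ hk (hweak _ _ _ h4)
  · rintro rfl
    exact hfwd
  · unfold Slow
    rw [e2]
    have h4 := Ht.growth_bias_ML hml hk τ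
    rw [h4, Ht.growth (fun s hs => hmero s hs.le) (hmero _ hhalf) hprod hk τ]
    have hre : ∀ w ∈ Pool.Agent.D0H40.CX.Os (Pool.Agent.D0H40.KX.bt k τ) (Pool.Agent.D0H40.KX.fc k),
        0 < w.re := by
      intro w hw
      have h5 : |arg w| < Real.pi / 2 := by
        have h6 := hw.2
        have h7 := abs_sub_abs_le_abs_sub (arg w) (Pool.Agent.D0H40.KX.bt k τ)
        have h8 := Pool.Agent.D0H40.KX.bt_abs_lt hk τ
        linarith
      exact (Complex.abs_arg_lt_pi_div_two_iff.1 h5).resolve_right hw.1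
    have hval : ∀ w : ℂ, 0 < w.re → meromorphicOrderAt (Ph Φ) w =
        ∑ i, meromorphicOrderAt (F i) (1 / 2 + γ * I + w) +
        ∑ i, meromorphicOrderAt (F i) (conj (1 / 2 + γ * I + w) + 2 * γ * I) := by
      intro w hw
      have hr : ((1 : ℂ) / 2).re = 1 / 2 := by norm_num
      have hw1 : 1 / 2 ≤ (1 / 2 + w).re := by
        rw [Complex.add_re, hr]
        linarith
      have hw2 : 1 / 2 ≤ (conj (1 / 2 + w)).re := by rwa [Complex.conj_re]
      rw [Ph_order' (fun s hs => hmero s hs.le) hw, hord _ hw1, hord _ hw2]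
      have e3 : 1 / 2 + w + γ * I = 1 / 2 + γ * I + w := by ring
      have e4 : conj (1 / 2 + w) + γ * I = conj (1 / 2 + γ * I + w) + 2 * γ * I := by
        simp only [map_add, map_mul, Complex.conj_ofReal, Complex.conj_I]
        ring
      rw [e3, e4]
    have hmem : ∀ w : ℂ, 1 / 2 + γ * I + w ∈ Sector γ k τ ↔
        w ∈ Pool.Agent.D0H40.CX.Os (Pool.Agent.D0H40.KX.bt k τ) (Pool.Agent.D0H40.KX.fc k) := by
      intro w
      unfold Sector Pool.Agent.D0H40.CX.Os Pool.Agent.D0H40.KX.bt Pool.Agent.D0H40.KX.fc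
      simp only [Set.mem_ofPred_eq, add_sub_cancel_left, ne_eq, add_eq_left]
    constructor
    · intro h5 s hs
      have hw : s - (1 / 2 + γ * I) ∈
          Pool.Agent.D0H40.CX.Os (Pool.Agent.D0H40.KX.bt k τ) (Pool.Agent.D0H40.KX.fc k) := by
        rw [← hmem, add_sub_cancel]
        exact hs
      have h6 := h5 _ hw
      rwa [hval _ (hre _ hw), add_sub_cancel] at h6
    · intro h5 w hw
      rw [hval w (hre w hw)]
      exact h5 _ ((hmem w).2 hw)

end Main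

/-- **The multiplicities of the ordinates as biases of finite sums over primes.** -/
theorem result (L : Type) [Field L] [NumberField L] [IsGalois ℚ L]
    -- a Frobenius element at every good prime
    (fr : ℕ → Gal(L/ℚ)) (hfr : ∀ p, Good L p → IsFrobenius p (fr p))
    -- representations and the continuations of their L-functions
    (n : ℕ) (d : Fin n → ℕ) (ρ : (i : Fin n) → Gal(L/ℚ) →* Matrix (Fin (d i)) (Fin (d i)) ℂ)
    (F : Fin n → ℂ → ℂ) (hF : ∀ i, IsContinuation (ρ i) fr (F i)) :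
    -- the points of the line `Re s = 1/2` except `1/2`
    (∀ γ : ℝ, γ ≠ 0 → ∃ m : Fin n → ℤ,
      (∀ i, meromorphicOrderAt (F i) (1 / 2 + γ * I) = m i) ∧
      (∀ a : ℂ,
        ((∃ k τ : ℝ, 1 < k ∧ WeakLaw (fun X => ∑ i, charSum (ρ i) fr γ k τ X) k (-a)) ↔ a = ∑ i, (m i : ℂ)) ∧
        ((∃ k τ : ℝ, 1 < k ∧ WeakLaw (fun X => ∑ i, logSum (ρ i) fr γ k τ X) k a) ↔ a = ∑ i, (m i : ℂ)) ∧
        ((∃ k τ : ℝ, 1 < k ∧ Law (fun X => ∑ i, logSum (ρ i) fr γ k τ X) k a) ↔ a = ∑ i, (m i : ℂ))) ∧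
      (∀ k τ : ℝ, 1 < k → ∀ a : ℂ, (WeakLaw (fun X => ∑ i, logSum (ρ i) fr γ k τ X) k a ↔
        WeakLaw (fun X => ∑ i, charSum (ρ i) fr γ k τ X) k (-a))) ∧
      (∀ k τ : ℝ, 1 < k → (Slow (fun X => ∑ i, charSum (ρ i) fr γ k τ X) ↔
        NoZerosNoPoles F γ (Sector γ k τ)))) ∧
    -- finitely many points
    (∀ S : Finset ℝ, 0 ∉ S → ∃ k τ : ℝ, 1 < k ∧ ∀ γ ∈ S, ∀ i, ∃ m : ℤ,
      meromorphicOrderAt (F i) (1 / 2 + γ * I) = m ∧ Law (logSum (ρ i) fr γ k τ) k m ∧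
      WeakLaw (charSum (ρ i) fr γ k τ) k (-m)) ∧
    -- no value occurs twice
    ((∀ γ : ℝ, 0 < γ → ∑ i, meromorphicOrderAt (F i) (1 / 2 + γ * I) ≤ 1) ↔
      ∀ γ : ℝ, 0 < γ → ∃ k τ b : ℝ, 1 < k ∧ b ≤ 1 ∧
        WeakLaw (fun X => ∑ i, charSum (ρ i) fr γ k τ X) k (-(b : ℂ))) := by
  refine ⟨fun γ hγ => one_point hfr hF hγ, ?_, ?_⟩
  · intro S hS
    have h := fun i => exists_par (ρ i) fr
    choose α H h1 h2 h3 using h
    have hhalf : (1 : ℝ) / 2 ≤ ((1 : ℂ) / 2).re := by norm_num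
    have hp : ∀ (x : Fin n × S) (s : ℂ), 1 < s.re →
        HasProd (Pool.Agent.D0H40.AR.loc (Good L) (Pool.Agent.D0H40.AR.sh (x.2 : ℝ) (α x.1)) s)
          (F x.1 (s + (x.2 : ℝ) * I)) := by
      intro x s hs
      rw [Pool.Agent.D0H40.AR.loc_shift good_pos, ← factor_eq (h1 x.1)]
      exact (hF x.1).prod _ (by simpa using hs)
    have hm := fun x : Fin n × S => ((H x.1).shift (x.2 : ℝ)).order_ne
      (F := fun s => F x.1 (s + (x.2 : ℝ) * I))
      (fun s hs => Pool.Agent.D0H40.AR.mero_line (hF x.1).mero _ hs.le)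
      (Pool.Agent.D0H40.AR.mero_line (hF x.1).mero _ hhalf) (hp x)
    choose m hm using hm
    obtain ⟨k, τ, hk, h4⟩ := Pool.Agent.D0H40.AR.common_choice (ι := Fin n × S) (fun x => d x.1)
      (fun x => Pool.Agent.D0H40.AR.sh (x.2 : ℝ) (α x.1)) (fun x => (H x.1).shift (x.2 : ℝ))
      (fun x s => F x.1 (s + (x.2 : ℝ) * I))
      (fun x s hs => Pool.Agent.D0H40.AR.mero_line (hF x.1).mero _ hs.le)
      (fun x => Pool.Agent.D0H40.AR.mero_line (hF x.1).mero _ hhalf) hp m hm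
    refine ⟨k, τ, hk, fun γ hγ i => ⟨m (i, ⟨γ, hγ⟩), ?_, ?_, ?_⟩⟩
    · have h5 := hm (i, ⟨γ, hγ⟩)
      rwa [Pool.Agent.D0H40.AR.order_line] at h5
    · rw [law_iff, logSum_eq (H i) (h1 i)]
      exact h4 (i, ⟨γ, hγ⟩)
    · rw [weakLaw_iff, charSum_eq (ρ := ρ i) (fr := fr) (h2 i)]
      have hγ0 : γ ≠ 0 := fun h => hS (h ▸ hγ)
      have h5 := ((H i).shift γ).law_bias_ML (ml_shift hfr (h3 i) hγ0) hk τ (m (i, ⟨γ, hγ⟩) : ℂ)
      rw [Complex.ofReal_zero, zero_div, add_zero] at h5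
      exact h5.1 (Pool.Agent.D0H40.AR.SL_WL (h4 (i, ⟨γ, hγ⟩)))
  · have key : ∀ γ : ℝ, 0 < γ → (∑ i, meromorphicOrderAt (F i) (1 / 2 + γ * I) ≤ 1 ↔
        ∃ k τ b : ℝ, 1 < k ∧ b ≤ 1 ∧
          WeakLaw (fun X => ∑ i, charSum (ρ i) fr γ k τ X) k (-(b : ℂ))) := by
      intro γ hγ
      obtain ⟨m, hm, hlaw, -, -⟩ := one_point hfr hF hγ.ne'
      have h1 : ∑ i, meromorphicOrderAt (F i) (1 / 2 + γ * I) = ((∑ i, m i : ℤ) : WithTop ℤ) := by
        simp only [hm]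
        exact (WithTop.coe_sum _ _).symm
      have h2 : (∑ i, meromorphicOrderAt (F i) (1 / 2 + γ * I) ≤ 1) ↔ ∑ i, m i ≤ 1 := by
        rw [h1]
        exact_mod_cast Iff.rfl
      rw [h2]
      constructor
      · intro h3
        obtain ⟨k, τ, hk, h4⟩ := ((hlaw (∑ i, (m i : ℂ))).1).2 rfl
        refine ⟨k, τ, ((∑ i, m i : ℤ) : ℝ), hk, by exact_mod_cast h3, ?_⟩
        have e : (((∑ i, m i : ℤ) : ℝ) : ℂ) = ∑ i, (m i : ℂ) := by push_cast; rfl
        rwa [e]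
      · rintro ⟨k, τ, b, hk, hb, h4⟩
        have h5 := ((hlaw (b : ℂ)).1).1 ⟨k, τ, hk, h4⟩
        have h6 : b = ((∑ i, m i : ℤ) : ℝ) := by
          have : (b : ℂ) = (((∑ i, m i : ℤ) : ℝ) : ℂ) := by
            rw [h5]
            push_cast
            rfl
          exact_mod_cast this
        rw [h6] at hb
        exact_mod_cast hb
    exact forall_congr' fun γ => forall_congr' fun hγ => key γ hγ

end Pool.Agent.Results.MP_347b49_nt.OrdinatesAsBiases
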